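import Mathlib
import Pool.Agent.H6.Kr.Defs
import Pool.Agent.H47.F5.Main

/-! The exact value of Kriesell's function for at most five terminals:
`f_5(1) = 1` and `f_5(r) = 2 r - ⌊(2 r + 1) / 5⌋ = 2 r + 1 - ⌈(2 r + 2) / 5⌉` for `r ≥ 2`. -/

set_option autoImplicit false

namespace Pool.Agent.Results.MP_b33958_co.ExactFive

open Pool.Agent.H6.Kr

/-- **Kriesell's problem for `s = 5`.** -/
theorem result : IsLeast {l | Suffices 5 1 l} 1 ∧
    ∀ r : ℕ, 2 ≤ r → IsLeast {l | Suffices 5 r l} (2 * r - (2 * r + 1) / 5) :=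
  Pool.Agent.H47.F5.exact_five

end Pool.Agent.Results.MP_b33958_co.ExactFive
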