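import Mathlib
import Pool.Agent.H6.Kr.Defs
import Pool.Agent.H6.Kr.Lower

/-! The exact value of Kriesell's function for at most four terminals:
`f_4(1) = 1` and `f_4(r) = ⌈3 r / 2⌉` for `r ≥ 2`. -/

set_option autoImplicit false

namespace Pool.Agent.Results.MP_b33958_co.ExactFour

open Pool.Agent.H6.Kr Finset

theorem empty_case {V : Type} [Nonempty V] (G : SimpleGraph V) (r : ℕ) :
    HasTrees G ∅ r := by
  obtain ⟨v⟩ := ‹Nonempty V›
  have hns : ∀ x, (G.singletonSubgraph v).neighborSet x = ∅ := by
    intro x
    ext y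
    simp [SimpleGraph.Subgraph.neighborSet]
  refine ⟨fun _ => G.singletonSubgraph v, fun _ => ⟨?_, ?_, ?_⟩, ?_⟩
  · exact SimpleGraph.IsTree.coe_singletonSubgraph G v
  · intro a ha; exact absurd ha (notMem_empty _)
  · intro x _ hx
    rw [hns] at hx
    simp at hx
  · intro i j _
    rw [Set.disjoint_left]
    intro e he
    induction e using Sym2.ind with
    | _ x y => exact absurd he (by simp)

theorem upper (r l : ℕ) (h : 3 * r ≤ 2 * l) : Suffices 4 r l := by
  intro V _ _ G A hA hconn
  classical
  rcases A.eq_empty_or_nonempty with rfl | hne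
  · exact empty_case G r
  · exact hasTrees_of_pack G hne
      (main_le4 (gends G) univ A l r hne hA (cutC_of_edgeConnSet G hconn) h)

theorem upper1 : Suffices 4 1 1 := by
  intro V _ _ G A hA hconn
  classical
  rcases A.eq_empty_or_nonempty with rfl | hne
  · exact empty_case G 1
  refine hasTrees_of_pack G hne ⟨fun _ => univ, fun _ => subset_univ _, ?_, fun _ => ?_⟩
  · intro i j hij
    exact absurd (Subsingleton.elim i j) hij
  · rw [conn_iff]
    intro Q hQ a ha b hb
    by_cases hab : a = b
    · rw [hab]
    · obtain ⟨p, _, _⟩ := hconn a ha b hb hab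
      have : ∀ x y : V, G.Walk x y → Q x y := by
        intro x y w
        induction w with
        | nil => exact Q.refl _
        | cons h _ ih => exact Q.trans (hQ _ _ h (mem_univ _)) ih
      exact this a b (p 0)

theorem anti {V : Type} {G : SimpleGraph V} {A : Finset V} {l l' : ℕ} (h : l ≤ l')
    (hc : EdgeConnSet G A l') : EdgeConnSet G A l := by
  intro v hv w hw hne
  obtain ⟨p, h1, h2⟩ := hc v hv w hw hne
  refine ⟨fun i => p (Fin.castLE h i), fun i => h1 _, fun i j hij => h2 _ _ ?_⟩
  intro heq
  exact hij (Fin.castLE_injective h heq)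

/-- **Kriesell's problem for `s = 4`.** -/
theorem result : IsLeast {l | Suffices 4 1 l} 1 ∧
    ∀ r : ℕ, 2 ≤ r → IsLeast {l | Suffices 4 r l} ((3 * r + 1) / 2) := by
  refine ⟨⟨upper1, ?_⟩, fun r hr => ⟨upper r _ (by omega), ?_⟩⟩
  · intro l hl
    by_contra hlt
    have hl0 : l = 0 := by omega
    subst hl0
    obtain ⟨T, hT, _⟩ := hl Bool ⊥ univ (by simp) (by
      intro v _ w _ _
      exact ⟨fun i => i.elim0, fun i => i.elim0, fun i => i.elim0⟩)
    have h := (hT 0).tree.connected
    have ht := (hT 0).sub true (mem_univ _)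
    have hf := (hT 0).sub false (mem_univ _)
    obtain ⟨w⟩ := h.preconnected ⟨true, ht⟩ ⟨false, hf⟩
    have : ∀ x y : (T 0).verts, (T 0).coe.Walk x y → x = y := by
      intro x y w
      induction w with
      | nil => rfl
      | cons h _ _ =>
        have h' := (T 0).adj_sub h
        exact absurd h' (by simp)
    have h2 := congrArg Subtype.val (this _ _ w)
    exact absurd h2 (by simp)
  · intro l hl
    by_contra hlt
    push Not at hlt
    obtain ⟨V, _, G, A, hA, hc, hno⟩ := lower4 ((3 * r + 1) / 2 - 1) (by omega)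
    have hne : A.Nonempty := card_pos.1 (by omega)
    obtain ⟨a, _⟩ := hne
    have : Nonempty V := ⟨a⟩
    have h1 := hl V G A hA.le (anti (by omega) hc)
    have h2 := hno r h1
    omega

end Pool.Agent.Results.MP_b33958_co.ExactFour
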