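import Mathlib
import Pool.Agent.H94.KRS.All

/-! Packing `A`-trees in arbitrary graphs: for at most `s` terminals, edge-connectivity
`3 (1 - 1/s) r + O_s(1)` suffices, and `2 (1 - 1/s) r - O_s(1)` is necessary. -/

set_option autoImplicit false

namespace Pool.Agent.Results.MP_b33958_co.GeneralGraphs

open Pool.Agent.H6.Kr

/-- **Theorem.** For every `s ≥ 2` there is a constant `C` such that for all `r` the number
`f_s(r)`, the least `l` such that in every finite graph every `l`-edge-connected set of at most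
`s` vertices admits `r` edge-disjoint `A`-trees, exists and lies between `2 (1 - 1/s) r - C` and
`3 (1 - 1/s) r + C`. -/
theorem result (s : ℕ) (hs : 2 ≤ s) : ∃ C : ℝ, ∀ r : ℕ, ∃ g : ℕ,
    IsLeast {l | Suffices s r l} g ∧
      2 * (1 - 1 / (s : ℝ)) * r - C ≤ g ∧ (g : ℝ) ≤ 3 * (1 - 1 / (s : ℝ)) * r + C :=
  Pool.KRS.krs_all s hs

end Pool.Agent.Results.MP_b33958_co.GeneralGraphs
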