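import Mathlib
import Pool.Agent.H54.KB.Final2

/-! Packing `A`-trees in graphs in which every component of `G - A` has at most three neighbours
in `A` or is a single vertex: the asymptotically optimal edge-connectivity `2 (1 - 1/s) r` for
at most `s` terminals. -/

set_option autoImplicit false

namespace Pool.Agent.Results.MP_b33958_co.SmallOrSingle

open Pool.Agent.H6.Kr Pool.Agent.H54.KB

/-- **Theorem.** For every `s ≥ 2` there is a constant `C` such that for every class `𝒞` of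
graphs with terminal sets `(G, A)` which contains all pairs `(G, A)` in which each vertex outside
`A` has at most two neighbours, both in `A`, and contains only pairs in which every component of
`G - A` has at most three neighbours in `A` or is a single vertex, the following holds for all
`r`: the least `l` such that `l`-edge-connected sets `A` of at most `s` vertices admit `r`
edge-disjoint `A`-trees, for all `(G, A)` in `𝒞`, differs from `2 (1 - 1/s) r` by at most `C`. -/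
theorem result (s : ℕ) (hs : 2 ≤ s) : ∃ C : ℝ,
    ∀ 𝒞 : (∀ V : Type, SimpleGraph V → Finset V → Prop),
      (∀ (V : Type) [Fintype V] (G : SimpleGraph V) (A : Finset V), Subdivided G A → 𝒞 V G A) →
      (∀ (V : Type) [Fintype V] (G : SimpleGraph V) (A : Finset V),
        𝒞 V G A → SmallOrSingle G A) →
      ∀ r : ℕ, ∃ g : ℕ,
        IsLeast {l | SufficesFor 𝒞 s r l} g ∧ |(g : ℝ) - 2 * (1 - 1 / (s : ℝ)) * r| ≤ C := by
  have hsR : (2 : ℝ) ≤ s := by exact_mod_cast hs
  refine ⟨2 * 2 ^ (2 ^ s) + 3, fun 𝒞 hlow hup r => ?_⟩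
  set K : ℕ := 2 ^ (2 ^ s) with hK
  set l0 : ℕ := (2 * (s - 1) * (r + K) + (s - 1)) / s with hl0
  have h1 : 2 * (s - 1) * (r + K) ≤ s * l0 := by
    have e1 := Nat.div_add_mod (2 * (s - 1) * (r + K) + (s - 1)) s
    have e2 := Nat.mod_lt (2 * (s - 1) * (r + K) + (s - 1)) (by omega : 0 < s)
    rw [← hl0] at e1
    omega
  have h2 : s * l0 ≤ 2 * (s - 1) * (r + K) + (s - 1) := by
    rw [mul_comm]; exact Nat.div_mul_le_self _ _
  have hne : {l | SufficesFor 𝒞 s r l}.Nonempty := ⟨l0, upper_sos 𝒞 hup s r l0 h1⟩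
  have hmem := Nat.sInf_mem hne
  refine ⟨sInf {l | SufficesFor 𝒞 s r l}, ⟨hmem, fun l hl => Nat.sInf_le hl⟩, ?_⟩
  set g := sInf {l | SufficesFor 𝒞 s r l} with hg
  have hgl : g ≤ l0 := Nat.sInf_le (upper_sos 𝒞 hup s r l0 h1)
  obtain ⟨n, rfl⟩ : ∃ n, s = n + 2 := ⟨s - 2, by omega⟩
  have h3 := lower_sos 𝒞 hlow n r g hmem
  have h3R : 2 * ((n : ℝ) + 1) * r ≤ ((n : ℝ) + 2) * (g + 3) := by exact_mod_cast h3
  have h4R : ((n : ℝ) + 2) * g ≤ 2 * ((n : ℝ) + 1) * (r + K) + (n + 1) := by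
    have h5 : (n + 2) * g ≤ 2 * (n + 2 - 1) * (r + K) + (n + 2 - 1) :=
      (Nat.mul_le_mul_left _ hgl).trans h2
    have h6 : n + 2 - 1 = n + 1 := by omega
    rw [h6] at h5
    exact_mod_cast h5
  have hKR : ((K : ℕ) : ℝ) = 2 ^ (2 ^ (n + 2)) := by rw [hK]; push_cast; rfl
  have hn : (0 : ℝ) < (n : ℝ) + 2 := by positivity
  have hcast : ((n + 2 : ℕ) : ℝ) = (n : ℝ) + 2 := by push_cast; ring
  rw [hcast, abs_le]
  have e1 : 2 * (1 - 1 / ((n : ℝ) + 2)) * r = 2 * ((n : ℝ) + 1) * r / ((n : ℝ) + 2) := by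
    field_simp
    ring
  rw [e1]
  constructor
  · have : 2 * ((n : ℝ) + 1) * r / ((n : ℝ) + 2) ≤ g + 3 := by
      rw [div_le_iff₀ hn]; linarith
    have hK0 : (0 : ℝ) ≤ 2 * 2 ^ (2 ^ (n + 2)) := by positivity
    linarith
  · have h5 : (g : ℝ) ≤ 2 * ((n : ℝ) + 1) * r / ((n : ℝ) + 2) + 2 * K + 1 := by
      have h6 : ((n : ℝ) + 2) * (2 * ((n : ℝ) + 1) * r / ((n : ℝ) + 2) + 2 * K + 1) =
          2 * ((n : ℝ) + 1) * r + ((n : ℝ) + 2) * (2 * K) + ((n : ℝ) + 2) := by
        field_simp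
      have h7 : ((n : ℝ) + 2) * g ≤
          ((n : ℝ) + 2) * (2 * ((n : ℝ) + 1) * r / ((n : ℝ) + 2) + 2 * K + 1) := by
        rw [h6]
        have hK0 : (0 : ℝ) ≤ K := Nat.cast_nonneg _
        nlinarith
      exact le_of_mul_le_mul_left h7 hn
    rw [← hKR]
    linarith

end Pool.Agent.Results.MP_b33958_co.SmallOrSingle
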